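import Pool.Agent.Helper32.FJL.Defs

set_option autoImplicit false

/-!
FJL-13a: parameter arithmetic for the fast Johnson–Lindenstrauss transform.
-/

namespace Pool.Agent.FJL

open Finset Pool.Agent.Helper67.JL

theorem exists_two_pow_near (x : ℝ) (hx : 1 ≤ x) : ∃ n : ℕ, x ≤ 2 ^ n ∧ (2 : ℝ) ^ n ≤ 2 * x := by
  obtain ⟨n, h1, h2⟩ := exists_nat_pow_near hx (one_lt_two (α := ℝ))
  refine ⟨n + 1, h2.le, ?_⟩
  rw [pow_succ]
  linarith

theorem four_terms (L L' u ε k m p Lam : ℝ) (hL : 1 ≤ L) (hL' : 20 ≤ L') (hu : 1 ≤ u)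
    (hε : 0 < ε) (hε1 : ε < 1) (hk : 16384 * u ≤ ε ^ 2 * k) (hm : k * Lam ≤ m) (hp : 1 ≤ p)
    (hLam : Lam = 2 * L * L' ^ 2 * p) (hbig : L * L' * p ≤ k) :
    (L * (5 * L' * u + m / k) / k + 2 + 4 * L * u / k) * (p * (55 * L' * u / m)) ≤ ε ^ 2 / 64 := by
  have hk0 : 0 < k := by
    by_contra h
    push Not at h
    have : ε ^ 2 * k ≤ 0 := mul_nonpos_of_nonneg_of_nonpos (by positivity) h
    linarith
  have hLam0 : 0 < Lam := by rw [hLam]; positivity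
  have hm0 : 0 < m := lt_of_lt_of_le (by positivity) hm
  have he2 : ε ^ 2 ≤ 1 := by nlinarith
  -- u / k
  have huk : u / k ≤ ε ^ 2 / 16384 := by
    rw [div_le_div_iff₀ hk0 (by norm_num)]
    linarith
  have huk0 : 0 ≤ u / k := by positivity
  -- u / m
  have hum : Lam * (u / m) ≤ ε ^ 2 / 16384 := by
    refine le_trans ?_ huk
    rw [← mul_div_assoc, div_le_div_iff₀ hm0 hk0]
    calc Lam * u * k = u * (k * Lam) := by ring
      _ ≤ u * m := mul_le_mul_of_nonneg_left hm (by linarith)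
  have hum0 : 0 ≤ u / m := by positivity
  have hsplit : (L * (5 * L' * u + m / k) / k + 2 + 4 * L * u / k) * (p * (55 * L' * u / m)) =
      275 / 2 * (u / k) * (Lam * (u / m)) + 55 * (L * L' * p / k) * (u / k) +
      110 * (p * L' * (u / m)) + 220 * (u / k) * (L * L' * p * (u / m)) := by
    rw [hLam]
    field_simp
    ring
  rw [hsplit]
  have h1 : 275 / 2 * (u / k) * (Lam * (u / m)) ≤ 275 / 2 * (ε ^ 2 / 16384) * (ε ^ 2 / 16384) := by
    apply mul_le_mul _ hum (by positivity) (by positivity)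
    exact mul_le_mul_of_nonneg_left huk (by norm_num)
  have h1' : 275 / 2 * (ε ^ 2 / 16384) * (ε ^ 2 / 16384) ≤ ε ^ 2 / 256 := by
    have : ε ^ 2 * ε ^ 2 ≤ 1 * ε ^ 2 := mul_le_mul_of_nonneg_right he2 (by positivity)
    nlinarith [sq_nonneg ε]
  have h2 : 55 * (L * L' * p / k) * (u / k) ≤ 55 * 1 * (ε ^ 2 / 16384) := by
    apply mul_le_mul _ huk huk0 (by norm_num)
    apply mul_le_mul_of_nonneg_left _ (by norm_num)
    rw [div_le_one hk0]; exact hbig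
  have h3 : p * L' * (u / m) ≤ Lam * (u / m) / 40 := by
    rw [mul_div_right_comm]
    apply mul_le_mul_of_nonneg_right _ hum0
    rw [hLam, le_div_iff₀ (by norm_num)]
    have h4 : 1 * 20 ≤ L * L' := mul_le_mul hL hL' (by norm_num) (by linarith)
    have h5 : (p * L') * 20 ≤ (p * L') * (L * L') :=
      mul_le_mul_of_nonneg_left (by linarith) (by positivity)
    nlinarith
  have h4 : L * L' * p * (u / m) ≤ Lam * (u / m) / 40 := by
    rw [mul_div_right_comm]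
    apply mul_le_mul_of_nonneg_right _ hum0
    rw [hLam, le_div_iff₀ (by norm_num)]
    have h5 : (L * L' * p) * 20 ≤ (L * L' * p) * L' :=
      mul_le_mul_of_nonneg_left hL' (by positivity)
    nlinarith
  have h5 : 220 * (u / k) * (L * L' * p * (u / m)) ≤
      220 * (ε ^ 2 / 16384) * (ε ^ 2 / 16384 / 40) := by
    apply mul_le_mul _ (h4.trans (by linarith)) (by positivity) (by positivity)
    exact mul_le_mul_of_nonneg_left huk (by norm_num)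
  have h5' : 220 * (ε ^ 2 / 16384) * (ε ^ 2 / 16384 / 40) ≤ ε ^ 2 / 256 := by
    have : ε ^ 2 * ε ^ 2 ≤ 1 * ε ^ 2 := mul_le_mul_of_nonneg_right he2 (by positivity)
    nlinarith [sq_nonneg ε]
  have h6 := sq_nonneg ε
  linarith

theorem fjl_params (C₀ : ℝ) (hC₀ : 1 ≤ C₀) : ∃ (C : ℝ) (c : ℕ), 0 < C ∧
    ∀ (d : ℕ) (ε u : ℝ) (κ : ℕ), 1 ≤ d → 0 < ε → ε < 1 → 1 ≤ u →
      16384 * u ≤ ε ^ 2 * 2 ^ κ → (2 : ℝ) ^ κ < d →
      ((2 : ℝ) ^ κ ≤ C * (1 + Real.log d) ^ c) ∨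
      ∃ (r a : ℕ) (L L' : ℝ), κ ≤ r ∧ a ≤ r ∧ d ≤ 2 ^ r ∧ 1 ≤ L ∧
        C₀ * Real.log (2 * 2 ^ r) ^ 4 ≤ L ∧ 1 ≤ L' ∧ 20 * L * Real.log (2 * 2 ^ r) ≤ L' ∧
        24 * L' * Real.log (2 * 2 ^ r) ≤ 2 ^ a ∧
        (L * (5 * L' * u + 2 ^ (r - κ)) / 2 ^ κ + 2 + 4 * L * u / 2 ^ κ) *
          (2 ^ a * (55 * L' * u / 2 ^ r)) ≤ ε ^ 2 / 64 ∧
        (2 ^ r * (10 * r + 2 ^ a + 6) : ℝ) ≤ C * d * (1 + Real.log d) ^ c := by
  obtain ⟨K, hK⟩ : ∃ K : ℝ, K = Real.log (3072000 * C₀ ^ 4) + 20 * Real.log 40 := ⟨_, rfl⟩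
  have hC4 : 1 ≤ C₀ ^ 4 := one_le_pow₀ hC₀
  have hK0 : 0 ≤ K := by
    have h1 : 0 ≤ Real.log (3072000 * C₀ ^ 4) := Real.log_nonneg (by linarith)
    have h2 : 0 ≤ Real.log 40 := Real.log_nonneg (by norm_num)
    rw [hK]; linarith
  obtain ⟨A, hA⟩ : ∃ A : ℝ, A = 2 * (1 + K) := ⟨_, rfl⟩
  have hA1 : 1 ≤ A := by rw [hA]; linarith
  refine ⟨2 * 768000 * 986 * C₀ ^ 5 * A ^ 26, 26, by positivity, ?_⟩
  intro d ε u κ hd hε hε1 hu hk hkd
  have hd' : (1 : ℝ) ≤ d := by exact_mod_cast hd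
  obtain ⟨ell, hell⟩ : ∃ ell : ℝ, ell = 1 + Real.log d := ⟨_, rfl⟩
  have hell1 : 1 ≤ ell := by rw [hell]; linarith [Real.log_nonneg hd']
  rw [← hell]
  obtain ⟨lam, hlam⟩ : ∃ lam : ℝ, lam = A * ell := ⟨_, rfl⟩
  have hlam1 : 1 ≤ lam := by rw [hlam]; exact one_le_mul_of_one_le_of_one_le hA1 hell1
  obtain ⟨L, hL⟩ : ∃ L : ℝ, L = C₀ * lam ^ 4 := ⟨_, rfl⟩
  have hL1 : 1 ≤ L := by rw [hL]; exact one_le_mul_of_one_le_of_one_le hC₀ (one_le_pow₀ hlam1)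
  obtain ⟨L', hL'⟩ : ∃ L' : ℝ, L' = 20 * L * lam := ⟨_, rfl⟩
  have hL'20 : 20 ≤ L' := by
    have := one_le_mul_of_one_le_of_one_le hL1 hlam1
    rw [hL']; linarith
  have hx1 : 1 ≤ 24 * L' * lam := by
    have := one_le_mul_of_one_le_of_one_le (show 1 ≤ L' by linarith) hlam1
    linarith
  obtain ⟨a, ha1, ha2⟩ := exists_two_pow_near (24 * L' * lam) hx1
  have hp1 : (1 : ℝ) ≤ 2 ^ a := one_le_pow₀ (by norm_num)
  have hp2 : (2 : ℝ) ^ a ≤ 960 * C₀ * lam ^ 6 := by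
    refine ha2.trans (le_of_eq ?_)
    rw [hL', hL]; ring
  obtain ⟨Lam, hLam⟩ : ∃ Lam : ℝ, Lam = 2 * L * L' ^ 2 * 2 ^ a := ⟨_, rfl⟩
  have hL'1 : 1 ≤ L' := by linarith
  have hLamp : (2 : ℝ) ^ a ≤ Lam := by
    rw [hLam]
    have h1 : 1 ≤ L * L' ^ 2 := one_le_mul_of_one_le_of_one_le hL1 (one_le_pow₀ hL'1)
    have h2 : 1 * (2 : ℝ) ^ a ≤ (L * L' ^ 2) * 2 ^ a :=
      mul_le_mul_of_nonneg_right h1 (by positivity)
    nlinarith
  have hLam1 : 1 ≤ Lam := hp1.trans hLamp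
  have hLam2 : Lam ≤ 768000 * C₀ ^ 4 * lam ^ 20 := by
    rw [hLam]
    have h1 : 2 * L * L' ^ 2 * 2 ^ a ≤ 2 * L * L' ^ 2 * (960 * C₀ * lam ^ 6) :=
      mul_le_mul_of_nonneg_left hp2 (by positivity)
    refine h1.trans (le_of_eq ?_)
    rw [hL', hL]; ring
  have hdLam : 1 ≤ d * Lam := one_le_mul_of_one_le_of_one_le hd' hLam1
  obtain ⟨r, hr1, hr2⟩ := exists_two_pow_near (d * Lam) hdLam
  -- the logarithm
  have hlogr : Real.log (2 * 2 ^ r) ≤ lam := by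
    have h1 : (2 : ℝ) * 2 ^ r ≤ d * (3072000 * C₀ ^ 4) * lam ^ 20 := by
      have : (d : ℝ) * Lam ≤ d * (768000 * C₀ ^ 4 * lam ^ 20) :=
        mul_le_mul_of_nonneg_left hLam2 (by linarith)
      linarith
    have h2 : Real.log (2 * 2 ^ r) ≤ Real.log (d * (3072000 * C₀ ^ 4) * lam ^ 20) :=
      Real.log_le_log (by positivity) h1
    rw [Real.log_mul (x := d * (3072000 * C₀ ^ 4)) (by positivity) (by positivity),
      Real.log_mul (x := (d : ℝ)) (by positivity) (by positivity), Real.log_pow] at h2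
    have h3 : Real.log (lam / 40) ≤ lam / 40 := by
      have := Real.log_le_sub_one_of_pos (show 0 < lam / 40 by positivity)
      linarith
    rw [Real.log_div (by positivity) (by norm_num)] at h3
    have h4 : Real.log d + K ≤ lam / 2 := by
      rw [hlam, hA, hell]
      nlinarith [Real.log_nonneg hd', mul_nonneg hK0 (Real.log_nonneg hd')]
    push_cast at h2
    linarith
  have hlogr0 : 0 ≤ Real.log (2 * 2 ^ r) := by
    apply Real.log_nonneg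
    have : (1 : ℝ) ≤ 2 ^ r := one_le_pow₀ (by norm_num)
    linarith
  rcases le_or_gt ((2 : ℝ) ^ κ) (L * L' * 2 ^ a) with hsmall | hbig
  · left
    have h1 : L * L' * 2 ^ a ≤ L * L' * (960 * C₀ * lam ^ 6) :=
      mul_le_mul_of_nonneg_left hp2 (by positivity)
    have h2 : L * L' * (960 * C₀ * lam ^ 6) = 19200 * C₀ ^ 3 * A ^ 15 * ell ^ 15 := by
      rw [hL', hL, hlam]; ring
    have h3 : C₀ ^ 3 ≤ C₀ ^ 5 := pow_le_pow_right₀ hC₀ (by norm_num)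
    have h4 : A ^ 15 ≤ A ^ 26 := pow_le_pow_right₀ hA1 (by norm_num)
    have h5 : ell ^ 15 ≤ ell ^ 26 := pow_le_pow_right₀ hell1 (by norm_num)
    have h6 : C₀ ^ 3 * A ^ 15 ≤ C₀ ^ 5 * A ^ 26 :=
      mul_le_mul h3 h4 (by positivity) (by positivity)
    have h7 : C₀ ^ 3 * A ^ 15 * ell ^ 15 ≤ C₀ ^ 5 * A ^ 26 * ell ^ 26 :=
      mul_le_mul h6 h5 (by positivity) (by positivity)
    have h8 : 0 ≤ C₀ ^ 5 * A ^ 26 * ell ^ 26 := by positivity
    calc (2 : ℝ) ^ κ ≤ L * L' * 2 ^ a := hsmall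
      _ ≤ 19200 * C₀ ^ 3 * A ^ 15 * ell ^ 15 := h1.trans (le_of_eq h2)
      _ = 19200 * (C₀ ^ 3 * A ^ 15 * ell ^ 15) := by ring
      _ ≤ 19200 * (C₀ ^ 5 * A ^ 26 * ell ^ 26) := by linarith
      _ ≤ 2 * 768000 * 986 * (C₀ ^ 5 * A ^ 26 * ell ^ 26) := by nlinarith
      _ = 2 * 768000 * 986 * C₀ ^ 5 * A ^ 26 * ell ^ 26 := by ring
  · right
    have hdr : (d : ℝ) ≤ 2 ^ r := by
      refine le_trans ?_ hr1
      exact le_mul_of_one_le_right (by linarith) hLam1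
    have hpr : (2 : ℝ) ^ a ≤ 2 ^ r :=
      hLamp.trans ((le_mul_of_one_le_left (by linarith) hd').trans hr1)
    have har : a ≤ r := (pow_le_pow_iff_right₀ (one_lt_two (α := ℝ))).mp hpr
    have hκr : κ ≤ r := (pow_le_pow_iff_right₀ (one_lt_two (α := ℝ))).mp (hkd.le.trans hdr)
    refine ⟨r, a, L, L', hκr, har, by exact_mod_cast hdr, hL1, ?_, hL'1, ?_, ?_, ?_, ?_⟩
    · rw [hL]
      exact mul_le_mul_of_nonneg_left (pow_le_pow_left₀ hlogr0 hlogr 4) (by linarith)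
    · rw [hL']
      exact mul_le_mul_of_nonneg_left hlogr (by linarith)
    · exact (mul_le_mul_of_nonneg_left hlogr (by linarith)).trans ha1
    · have h2 : (2 : ℝ) ^ (r - κ) = 2 ^ r / 2 ^ κ := by
        rw [pow_sub₀ _ (by norm_num) hκr, div_eq_mul_inv]
      rw [h2]
      refine four_terms L L' u ε (2 ^ κ) (2 ^ r) (2 ^ a) Lam hL1 hL'20 hu hε hε1 hk ?_ hp1 hLam
        hbig.le
      exact (mul_le_mul_of_nonneg_right hkd.le (by linarith)).trans hr1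
    · have hr3 : (r : ℝ) ≤ 2 * lam := by
        have h1 : Real.log (2 * 2 ^ r) = (r + 1) * Real.log 2 := by
          rw [← pow_succ', Real.log_pow]; push_cast; ring
        have h2 : (1 : ℝ) / 2 < Real.log 2 := by
          have := Real.log_two_gt_d9; linarith
        rw [h1] at hlogr
        have h3 : (0 : ℝ) ≤ r := Nat.cast_nonneg _
        nlinarith
      have h6 : lam ≤ lam ^ 6 := by
        calc lam = lam ^ 1 := (pow_one _).symm
          _ ≤ lam ^ 6 := pow_le_pow_right₀ hlam1 (by norm_num)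
      have h7 : 1 ≤ lam ^ 6 := one_le_pow₀ hlam1
      have h8 : lam ^ 6 ≤ C₀ * lam ^ 6 := le_mul_of_one_le_left (by positivity) hC₀
      have h9 : (10 * r + 2 ^ a + 6 : ℝ) ≤ 986 * (C₀ * lam ^ 6) := by linarith
      have h10 : (2 : ℝ) ^ r ≤ 2 * (d * (768000 * C₀ ^ 4 * lam ^ 20)) :=
        hr2.trans (by
          have : (d : ℝ) * Lam ≤ d * (768000 * C₀ ^ 4 * lam ^ 20) :=
            mul_le_mul_of_nonneg_left hLam2 (by linarith)
          linarith)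
      calc (2 ^ r * (10 * r + 2 ^ a + 6) : ℝ)
          ≤ (2 * (d * (768000 * C₀ ^ 4 * lam ^ 20))) * (986 * (C₀ * lam ^ 6)) :=
            mul_le_mul h10 h9 (by positivity) (by positivity)
        _ = 2 * 768000 * 986 * C₀ ^ 5 * A ^ 26 * d * ell ^ 26 := by
            rw [hlam]; ring

end Pool.Agent.FJL
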