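import Pool.Agent.Helper32.FJL.Defs

set_option autoImplicit false

/-!
FJL-1: two-sided tails of the Rademacher chaos `‖∑ σ_i w_i‖²`.
-/

namespace Pool.Agent.FJL

open Finset Pool.Agent.Helper67.JL

open scoped RealInnerProductSpace

theorem op_dual {I K : Type} [Fintype I] [Fintype K] (w : I → K → ℝ) (B : ℝ) (hB : 0 ≤ B)
    (h : ∀ z : K → ℝ, ∑ i, (∑ k, w i k * z k) ^ 2 ≤ B * ∑ k, z k ^ 2) (a : I → ℝ) :
    ∑ k, (∑ i, a i * w i k) ^ 2 ≤ B * ∑ i, a i ^ 2 := by
  set z : K → ℝ := fun k => ∑ i, a i * w i k with hz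
  have h1 : ∑ k, z k ^ 2 = ∑ i, a i * ∑ k, w i k * z k := by
    calc ∑ k, z k ^ 2 = ∑ k, ∑ i, a i * (w i k * z k) := by
          refine sum_congr rfl fun k _ => ?_
          rw [sq]
          conv_lhs => rw [hz]
          simp only
          rw [sum_mul]
          exact sum_congr rfl fun i _ => by ring
      _ = ∑ i, ∑ k, a i * (w i k * z k) := sum_comm
      _ = ∑ i, a i * ∑ k, w i k * z k := by
          refine sum_congr rfl fun i _ => ?_
          rw [mul_sum]
  have h2 : (∑ i, a i * ∑ k, w i k * z k) ^ 2 ≤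
      (∑ i, a i ^ 2) * ∑ i, (∑ k, w i k * z k) ^ 2 := sum_mul_sq_le_sq_mul_sq _ _ _
  have h3 := h z
  have h4 : 0 ≤ ∑ i, a i ^ 2 := sum_nonneg fun i _ => sq_nonneg _
  have h5 : 0 ≤ ∑ k, z k ^ 2 := sum_nonneg fun i _ => sq_nonneg _
  rw [← h1] at h2
  have h6 : (∑ k, z k ^ 2) ^ 2 ≤ (∑ i, a i ^ 2) * (B * ∑ k, z k ^ 2) :=
    h2.trans (mul_le_mul_of_nonneg_left h3 h4)
  change ∑ k, z k ^ 2 ≤ _
  rcases h5.eq_or_lt with h7 | h7
  · rw [← h7]; positivity
  · by_contra hcon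
    push Not at hcon
    nlinarith

/-- Transport of averages over sign vectors along an equivalence. -/
theorem ex_reindex {I : Type} [Fintype I] [DecidableEq I] {n : ℕ} (e : I ≃ Fin n)
    (f : (I → Bool) → ℝ) : ex f = ex (fun s : Fin n → Bool => f (fun i => s (e i))) := by
  rw [ex_equiv (Equiv.arrowCongr e (Equiv.refl Bool)).symm]
  rfl

section
variable {I K : Type} [Fintype I] [DecidableEq I] [Fintype K] (w : I → K → ℝ)

/-- The vector `w i` in Euclidean space. -/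
noncomputable def wE {n : ℕ} (e : I ≃ Fin n) (i : Fin n) : EuclideanSpace ℝ K :=
  WithLp.toLp 2 (w (e.symm i))

theorem inner_wE {n : ℕ} (e : I ≃ Fin n) (i : Fin n) (z : EuclideanSpace ℝ K) :
    ⟪wE w e i, z⟫ = ∑ k, w (e.symm i) k * z k := by
  simp only [wE, PiLp.inner_apply, RCLike.inner_apply, conj_trivial]
  exact sum_congr rfl fun k _ => mul_comm _ _

theorem sum_inner_wE {n : ℕ} (e : I ≃ Fin n) (z : EuclideanSpace ℝ K) :
    ∑ i, ⟪wE w e i, z⟫ ^ 2 = ∑ i, (∑ k, w i k * z k) ^ 2 := by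
  simp_rw [inner_wE]
  exact e.symm.sum_comp (fun i => (∑ k, w i k * z k) ^ 2)

theorem sum_norm_wE {n : ℕ} (e : I ≃ Fin n) :
    ∑ i, ‖wE w e i‖ ^ 2 = ∑ i, ∑ k, w i k ^ 2 := by
  simp_rw [EuclideanSpace.real_norm_sq_eq, wE]
  exact e.symm.sum_comp (fun i => ∑ k, w i k ^ 2)

theorem chaos_eq {n : ℕ} (e : I ≃ Fin n) (s : Fin n → Bool) :
    ‖∑ i, sg (s i) • wE w e i‖ ^ 2 = ∑ k, (∑ i, sg (s (e i)) * w i k) ^ 2 := by
  rw [EuclideanSpace.real_norm_sq_eq]
  refine sum_congr rfl fun k _ => ?_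
  congr 1
  have : (∑ i, sg (s i) • wE w e i) k = ∑ i, sg (s i) * w (e.symm i) k := by
    simp [wE, Finset.sum_apply]
  rw [this, ← e.sum_comp]
  simp

theorem dual_wE {n : ℕ} (e : I ≃ Fin n) {B : ℝ} (hB : 0 ≤ B)
    (hop : ∀ a : I → ℝ, ∑ k, (∑ i, a i * w i k) ^ 2 ≤ B * ∑ i, a i ^ 2)
    (z : EuclideanSpace ℝ K) : ∑ i, ⟪wE w e i, z⟫ ^ 2 ≤ B * ‖z‖ ^ 2 := by
  rw [sum_inner_wE, EuclideanSpace.real_norm_sq_eq]
  have h := op_dual (fun k i => w i k) B hB (fun a => by
    refine le_trans (le_of_eq ?_) (hop a)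
    exact sum_congr rfl fun k _ => by simp_rw [mul_comm]) (fun k => z k)
  refine le_trans (le_of_eq ?_) h
  exact sum_congr rfl fun k _ => by simp_rw [mul_comm]

/-- Upper exponential moment of the chaos. -/
theorem mgf_upper (B lam : ℝ) (hB : 0 < B) (hlam : 0 < lam) (hlB : 2 * (lam * B) < 1)
    (hop : ∀ a : I → ℝ, ∑ k, (∑ i, a i * w i k) ^ 2 ≤ B * ∑ i, a i ^ 2) :
    ex (fun s : I → Bool => Real.exp (lam * ∑ k, (∑ i, sg (s i) * w i k) ^ 2)) ≤
      Real.exp (lam / (1 - 2 * (lam * B)) * ∑ i, ∑ k, w i k ^ 2) := by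
  obtain ⟨n, ⟨e⟩⟩ := Finite.exists_equiv_fin I
  have hc : 0 < 1 / lam - 2 * B := by
    rw [sub_pos, lt_div_iff₀ hlam]; linarith
  have h := chaos_upper_aux (V := EuclideanSpace ℝ K) (1 / lam) B hc n (wE w e)
    (lam • innerₗ (EuclideanSpace ℝ K)) (fun _ => 0)
    (by
      intro y z
      simp [real_inner_comm])
    (by
      intro y
      simp only [LinearMap.smul_apply, innerₗ_apply_apply, smul_eq_mul,
        real_inner_self_eq_norm_sq]
      positivity)
    (by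
      intro y
      refine ⟨lam • y, ?_⟩
      simp only [LinearMap.smul_apply, innerₗ_apply_apply, smul_eq_mul,
        real_inner_self_eq_norm_sq, real_inner_smul_right, norm_smul, mul_pow,
        Real.norm_eq_abs, sq_abs]
      apply le_of_eq
      field_simp
      ring)
    (by
      intro z
      have := dual_wE w e hB.le hop z
      linarith)
  rw [sum_norm_wE] at h
  have h1 : (1 / lam - 2 * B)⁻¹ = lam / (1 - 2 * (lam * B)) := by
    have : 1 / lam - 2 * B = (1 - 2 * (lam * B)) / lam := by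
      field_simp
    rw [this, inv_div]
  rw [h1] at h
  rw [ex_reindex e]
  refine le_trans (le_of_eq ?_) h
  congr 1
  funext s
  congr 1
  rw [← chaos_eq w e s]
  simp only [LinearMap.smul_apply, innerₗ_apply_apply, smul_eq_mul, real_inner_self_eq_norm_sq]

/-- Lower exponential moment of the chaos. -/
theorem mgf_lower (B lam : ℝ) (hB : 0 < B) (hlam : 0 < lam) (hlB : 4 * (lam * B) ≤ 1)
    (hop : ∀ a : I → ℝ, ∑ k, (∑ i, a i * w i k) ^ 2 ≤ B * ∑ i, a i ^ 2) :
    ex (fun s : I → Bool => Real.exp (-(lam * ∑ k, (∑ i, sg (s i) * w i k) ^ 2))) ≤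
      Real.exp (-(lam / (1 + 4 * (lam * B)) * ∑ i, ∑ k, w i k ^ 2)) := by
  obtain ⟨n, ⟨e⟩⟩ := Finite.exists_equiv_fin I
  have hw : ∀ i, ‖wE w e i‖ ^ 2 ≤ B := by
    intro i
    have h1 := hop (Pi.single (e.symm i) 1)
    have h2 : ∑ j, (Pi.single (e.symm i) (1 : ℝ) : I → ℝ) j ^ 2 = 1 := by
      simp [Pi.single_apply, ite_pow]
    rw [h2, mul_one] at h1
    refine le_trans (le_of_eq ?_) h1
    rw [EuclideanSpace.real_norm_sq_eq, wE]
    refine sum_congr rfl fun k _ => ?_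
    simp [Pi.single_apply]
  have h := chaos_lower_aux (V := EuclideanSpace ℝ K) (1 / lam) B (by positivity) hB.le n
    (wE w e) (lam • innerₗ (EuclideanSpace ℝ K)) (fun _ => 0)
    (by
      intro y z
      simp [real_inner_comm])
    (by
      intro i
      simp only [LinearMap.smul_apply, innerₗ_apply_apply, smul_eq_mul,
        real_inner_self_eq_norm_sq]
      nlinarith [hw i])
    (by
      intro y z
      simp only [LinearMap.smul_apply, innerₗ_apply_apply, smul_eq_mul,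
        real_inner_self_eq_norm_sq]
      have h1 : 0 ≤ ‖lam • y - z‖ ^ 2 := sq_nonneg _
      rw [norm_sub_sq_real, norm_smul, real_inner_smul_left, mul_pow, Real.norm_eq_abs,
        sq_abs] at h1
      have h2 : 2 * ⟪y, z⟫ - 1 / lam * ‖z‖ ^ 2 - 4 * 0 = lam * ‖y‖ ^ 2 -
          1 / lam * (lam ^ 2 * ‖y‖ ^ 2 - 2 * (lam * ⟪y, z⟫) + ‖z‖ ^ 2) := by
        field_simp
        ring
      rw [h2]
      have h3 : 0 ≤ 1 / lam * (lam ^ 2 * ‖y‖ ^ 2 - 2 * (lam * ⟪y, z⟫) + ‖z‖ ^ 2) :=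
        mul_nonneg (by positivity) h1
      linarith)
    (by
      intro z
      have := dual_wE w e hB.le hop z
      linarith)
  rw [sum_norm_wE] at h
  have h1 : (1 / lam + 4 * B)⁻¹ = lam / (1 + 4 * (lam * B)) := by
    have : 1 / lam + 4 * B = (1 + 4 * (lam * B)) / lam := by
      field_simp
    rw [this, inv_div]
  rw [h1] at h
  rw [ex_reindex e]
  refine le_trans (le_of_eq ?_) h
  congr 1
  funext s
  congr 1
  rw [← chaos_eq w e s]
  simp only [LinearMap.smul_apply, innerₗ_apply_apply, smul_eq_mul, real_inner_self_eq_norm_sq]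

end

theorem chaos_tail {I K : Type} [Fintype I] [DecidableEq I] [Fintype K] (w : I → K → ℝ)
    (B T t : ℝ) (hB : 0 < B) (ht : 0 ≤ t)
    (hop : ∀ a : I → ℝ, ∑ k, (∑ i, a i * w i k) ^ 2 ≤ B * ∑ i, a i ^ 2)
    (htr : ∑ i, ∑ k, w i k ^ 2 ≤ T) :
    pr (fun s : I → Bool => 2 * T + 4 * B * t ≤ ∑ k, (∑ i, sg (s i) * w i k) ^ 2)
      ≤ Real.exp (-t) := by
  have h1 := pr_le_exp (fun s : I → Bool => ∑ k, (∑ i, sg (s i) * w i k) ^ 2)
    (2 * T + 4 * B * t) (1 / (4 * B)) (by positivity)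
  have hlB : 2 * (1 / (4 * B) * B) = 1 / 2 := by field_simp; norm_num
  have h2 := mgf_upper w B (1 / (4 * B)) hB (by positivity) (by rw [hlB]; norm_num) hop
  rw [hlB] at h2
  have h3 : Real.exp (1 / (4 * B) / (1 - 1 / 2) * ∑ i, ∑ k, w i k ^ 2) ≤
      Real.exp (1 / (2 * B) * T) := by
    apply Real.exp_le_exp.mpr
    have : 1 / (4 * B) / (1 - 1 / 2) = 1 / (2 * B) := by field_simp; norm_num
    rw [this]
    exact mul_le_mul_of_nonneg_left htr (by positivity)
  refine h1.trans ((mul_le_mul_of_nonneg_left (h2.trans h3) (Real.exp_pos _).le).trans ?_)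
  rw [← Real.exp_add]
  apply le_of_eq
  congr 1
  field_simp
  ring

theorem chaos_dev {I K : Type} [Fintype I] [DecidableEq I] [Fintype K] (w : I → K → ℝ)
    (B T e : ℝ) (hB : 0 < B) (he : 0 < e) (he1 : e ≤ 1)
    (hop : ∀ a : I → ℝ, ∑ k, (∑ i, a i * w i k) ^ 2 ≤ B * ∑ i, a i ^ 2)
    (htr : ∑ i, ∑ k, w i k ^ 2 = T) :
    pr (fun s : I → Bool => ¬ ((1 - e) * T ≤ ∑ k, (∑ i, sg (s i) * w i k) ^ 2 ∧
        ∑ k, (∑ i, sg (s i) * w i k) ^ 2 ≤ (1 + e) * T))
      ≤ 2 * Real.exp (-(e ^ 2 * T / (16 * B))) := by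
  have hT : 0 ≤ T := by
    rw [← htr]; exact sum_nonneg fun i _ => sum_nonneg fun k _ => sq_nonneg _
  -- upper deviations
  have hup : pr (fun s : I → Bool => (1 + e) * T ≤ ∑ k, (∑ i, sg (s i) * w i k) ^ 2) ≤
      Real.exp (-(e ^ 2 * T / (16 * B))) := by
    have h1 := pr_le_exp (fun s : I → Bool => ∑ k, (∑ i, sg (s i) * w i k) ^ 2)
      ((1 + e) * T) (e / (6 * B)) (by positivity)
    have hlB : 2 * (e / (6 * B) * B) = e / 3 := by field_simp; norm_num
    have h2 := mgf_upper w B (e / (6 * B)) hB (by positivity) (by rw [hlB]; linarith) hop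
    rw [hlB, htr] at h2
    refine h1.trans ((mul_le_mul_of_nonneg_left h2 (Real.exp_pos _).le).trans ?_)
    rw [← Real.exp_add]
    apply Real.exp_le_exp.mpr
    have h3 : 1 / (1 - e / 3) ≤ 1 + e / 2 := by
      rw [div_le_iff₀ (by linarith)]
      nlinarith
    have h4 : e / (6 * B) / (1 - e / 3) * T ≤ e / (6 * B) * T * (1 + e / 2) := by
      have : e / (6 * B) / (1 - e / 3) * T = e / (6 * B) * T * (1 / (1 - e / 3)) := by ring
      rw [this]
      exact mul_le_mul_of_nonneg_left h3 (by positivity)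
    have h5 : -(e / (6 * B)) * ((1 + e) * T) + e / (6 * B) * T * (1 + e / 2) =
        -(e ^ 2 * T / (12 * B)) := by
      field_simp
      ring
    have h6 : e ^ 2 * T / (16 * B) ≤ e ^ 2 * T / (12 * B) := by
      apply div_le_div_of_nonneg_left (by positivity) (by positivity) (by linarith)
    linarith
  -- lower deviations
  have hlow : pr (fun s : I → Bool => -((1 - e) * T) ≤ -∑ k, (∑ i, sg (s i) * w i k) ^ 2) ≤
      Real.exp (-(e ^ 2 * T / (16 * B))) := by
    have h1 := pr_le_exp (fun s : I → Bool => -∑ k, (∑ i, sg (s i) * w i k) ^ 2)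
      (-((1 - e) * T)) (e / (8 * B)) (by positivity)
    have hlB : 4 * (e / (8 * B) * B) = e / 2 := by field_simp; norm_num
    have h2 := mgf_lower w B (e / (8 * B)) hB (by positivity) (by rw [hlB]; linarith) hop
    rw [hlB, htr] at h2
    have h2' : ex (fun s : I → Bool => Real.exp (e / (8 * B) *
        -∑ k, (∑ i, sg (s i) * w i k) ^ 2)) ≤
        Real.exp (-(e / (8 * B) / (1 + e / 2) * T)) := by
      refine le_trans (le_of_eq ?_) h2
      congr 1
      funext s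
      rw [mul_neg]
    refine h1.trans ((mul_le_mul_of_nonneg_left h2' (Real.exp_pos _).le).trans ?_)
    rw [← Real.exp_add]
    apply Real.exp_le_exp.mpr
    have h3 : 1 - e / 2 ≤ 1 / (1 + e / 2) := by
      rw [le_div_iff₀ (by linarith)]
      nlinarith
    have h4 : e / (8 * B) * T * (1 - e / 2) ≤ e / (8 * B) / (1 + e / 2) * T := by
      have : e / (8 * B) / (1 + e / 2) * T = e / (8 * B) * T * (1 / (1 + e / 2)) := by ring
      rw [this]
      exact mul_le_mul_of_nonneg_left h3 (by positivity)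
    have h5 : -(e / (8 * B)) * (-((1 - e) * T)) - e / (8 * B) * T * (1 - e / 2) =
        -(e ^ 2 * T / (16 * B)) := by
      field_simp
      ring
    linarith
  refine (pr_mono (q := fun s => ((1 + e) * T ≤ ∑ k, (∑ i, sg (s i) * w i k) ^ 2) ∨
    (-((1 - e) * T) ≤ -∑ k, (∑ i, sg (s i) * w i k) ^ 2)) ?_).trans
    ((pr_or_le _ _).trans (by linarith))
  intro s hs
  rw [not_and_or, not_le, not_le] at hs
  rcases hs with h | h
  · right; linarith
  · left; exact h.le

end Pool.Agent.FJL
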